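import Pool.Agent.N963.GN.Delta

set_option autoImplicit false

/-!
# MP_cd509c_nt: the Ramanujan Xi function has no preimage under hyperbolicity preservers

`Ξ_Δ(z) = Λ(6 + i z)`, `Λ(s) = (2π)^(-s) Γ(s) L(s, Δ)`. The conjecture says that all zeros of `Ξ_Δ` are real.
Let `φ` be a function of the Laguerre-Pólya class. The differential operator of infinite order
`φ(D) = ∑ φ_n D^n` preserves the class of real entire functions of order less than two with only real zeros, and
it does not increase the number of non-real zeros (Pólya, Benz, de Bruijn).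

We show that `Ξ_Δ` is not of the form `φ(D) G`, where `φ` has at least one zero and `G` is a real entire function
of order less than two with only finitely many non-real zeros. The second part makes preimages explicit
for `φ(s) = exp(-λ s² + β s) ∏ (1 - r_k s) exp(r_k s)`: they are the averages of `Ξ_Δ` with respect to the Pólya
frequency densities. (The case of zero-free `φ`, that is `φ = exp(-λ s²)`, is Newman's conjecture for the extended
Selberg class, proved by Dobner after Rodgers and Tao.)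
-/

namespace Pool.Agent.Results.MP_cd509c_nt.LaguerrePolyaPreimages

open Complex Filter Polynomial MeasureTheory

/-- `Δ(i y) = e^(-2πy) ∏_{n ≥ 1} (1 - e^(-2πny))^24`, the modular discriminant on the imaginary axis
(the function of the frozen statement S18517). -/
noncomputable def delta (y : ℝ) : ℝ :=
  Real.exp (-2 * Real.pi * y) * ∏' n : ℕ, (1 - Real.exp (-2 * Real.pi * ((n : ℝ) + 1) * y)) ^ 24

/-- The completed L-function `Λ(s) = ∫_0^∞ Δ(i y) y^(s-1) dy = (2π)^(-s) Γ(s) L(s, Δ)`, an entire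
function with `Λ(12 - s) = Λ(s)`. -/
noncomputable def Lam (s : ℂ) : ℂ := mellin (fun y : ℝ => ((delta y : ℝ) : ℂ)) s

/-- The Ramanujan Xi function. -/
noncomputable def Xi (z : ℂ) : ℂ := Lam (6 + I * z)

/-- The Laguerre-Pólya class: the functions, not identically zero, that are locally uniform limits of real
polynomials all of whose complex zeros are real. -/
def LaguerrePolya (φ : ℂ → ℂ) : Prop := (∃ z, φ z ≠ 0) ∧ ∃ Q : ℕ → ℝ[X],
  (∀ (N : ℕ) (w : ℂ), aeval w (Q N) = 0 → w.im = 0) ∧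
    TendstoLocallyUniformly (fun (N : ℕ) (w : ℂ) => aeval w (Q N)) φ atTop

/-- `φ(D) G = F`: the series `∑ φ_n G^(n)(z)`, `φ(s) = ∑ φ_n s^n`, converges to `F z` for every `z`. -/
def OperatorEq (φ G F : ℂ → ℂ) : Prop := ∀ z : ℂ, HasSum (fun n : ℕ =>
  iteratedDeriv n φ 0 / (n.factorial : ℂ) * iteratedDeriv n G z) (F z)

/-- `S(u) = exp(λ u² + i β u) ∏ (1 - i r_k u) exp(i r_k u)`. If `λ ≥ 0`, `∑ r_k² < ∞` and not all `r_k` are zero, `1 / S` is
the Fourier transform of a Pólya frequency density; all of them but the Gaussian ones are obtained (Schoenberg). -/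
noncomputable def S (lam β : ℝ) (r : ℕ → ℝ) (u : ℝ) : ℂ :=
  cexp (lam * u ^ 2 + I * β * u) * ∏' k, ((1 - I * r k * u) * cexp (I * r k * u))

/-- The average of `Ξ_Δ` over real translations with respect to the Pólya frequency density; the Fourier
transform of `Ξ_Δ` is `Δ(i e^u) e^(6 u)`. -/
noncomputable def Average (lam β : ℝ) (r : ℕ → ℝ) (z : ℂ) : ℂ :=
  ∫ u : ℝ, (delta (Real.exp u) : ℂ) * cexp (6 * u) / S lam β r u * cexp (I * z * u)

theorem result :
    (∀ φ : ℂ → ℂ, LaguerrePolya φ → (∃ s, φ s = 0) →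
      ∀ G : ℂ → ℂ, Differentiable ℂ G → (∀ x : ℝ, (G x).im = 0) →
        (∃ C ρ : ℝ, ρ < 2 ∧ ∀ z : ℂ, ‖G z‖ ≤ Real.exp (C * (1 + ‖z‖) ^ ρ)) →
        OperatorEq φ G Xi → {z : ℂ | G z = 0 ∧ z.im ≠ 0}.Infinite) ∧
    (∀ z : ℂ, Average 0 0 0 z = Xi z) ∧
    ∀ (lam β : ℝ) (r : ℕ → ℝ), 0 ≤ lam → Summable (fun k => r k ^ 2) → (∃ k, r k ≠ 0) →
      {z : ℂ | Average lam β r z = 0 ∧ z.im ≠ 0}.Infinite := by
  have hav : ∀ (lam β : ℝ) (r : ℕ → ℝ), Average lam β r = Pool.Agent.N963.GN.Lt (fun u : ℝ =>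
      Pool.Agent.N963.GN.Km 1 12 (fun w => Pool.Agent.W97.TW.deltaForm (UpperHalfPlane.ofComplex w)) 1 (u : ℂ) /
        Pool.Agent.N963.GN.Sf lam β r u) := by
    intro lam β r
    funext z
    unfold Average Pool.Agent.N963.GN.Lt
    refine integral_congr_ae (Eventually.of_forall fun u => ?_)
    simp only
    rw [Pool.Agent.N963.GN.Km_delta]
    rfl
  refine ⟨?_, ?_, ?_⟩
  · intro φ hφ hφ1 G hG hs hgr hop
    refine Pool.Agent.N963.GN.opM' Pool.Agent.N963.GN.mf_delta hφ hφ1 hG
      (Pool.Agent.N963.GN.sym_of_real' hG hs) ?_ (fun z => ?_)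
    · obtain ⟨C, ρ, hρ, h⟩ := hgr
      refine ⟨|C|, max ρ 0, abs_nonneg _, le_max_right _ _, max_lt hρ (by norm_num), fun z => (h z).trans ?_⟩
      rw [Real.exp_le_exp]
      have h1 : 1 ≤ 1 + ‖z‖ := by linarith [norm_nonneg z]
      have h2 : 0 ≤ (1 + ‖z‖) ^ ρ := Real.rpow_nonneg (by linarith) _
      calc C * (1 + ‖z‖) ^ ρ ≤ |C| * (1 + ‖z‖) ^ ρ := mul_le_mul_of_nonneg_right (le_abs_self C) h2
        _ ≤ |C| * (1 + ‖z‖) ^ (max ρ 0) := mul_le_mul_of_nonneg_left
            (Real.rpow_le_rpow_of_exponent_le h1 (le_max_left _ _)) (abs_nonneg _)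
    · rw [Pool.Agent.N963.GN.Lt_delta z]
      exact hop z
  · intro z
    rw [hav, show Xi z = mellin (fun y : ℝ => ((Pool.Agent.H128R3.JD.DelK.Dl y : ℝ) : ℂ)) (6 + I * z) from rfl,
      ← Pool.Agent.N963.GN.Lt_delta z]
    congr 1
    funext u
    simp [Pool.Agent.N963.GN.Sf]
  · intro lam β r hlam hr h
    rw [hav]
    exact Pool.Agent.N963.GN.avM Pool.Agent.N963.GN.mf_delta hlam hr h

end Pool.Agent.Results.MP_cd509c_nt.LaguerrePolyaPreimages
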