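import Pool.Agent.N793.LI.FinHalf
import Pool.Agent.N965.RL.Sf

/-!
# MP_cd509c_nt: the signs of the Li coefficients of the Ramanujan L-function

The Ramanujan Xi function is `Ξ_Δ(z) = Λ(6 + i z)`, `Λ(s) = (2π)^(-s) Γ(s) L(s, Δ)`. For a real number `α > 6` (the base
point) the Li coefficients are

  `λ_n = ∑_ρ Re (1 - ((ρ - α) / (ρ + α - 12))^n)`,

the sum over all zeros of `Λ` with multiplicity (absolutely convergent; `α = 13/2` are the classical ones). By Li,
Bombieri-Lagarias, Lagarias (and Sekatskii for arbitrary base points) all zeros of `Ξ_Δ` are real if and only if ALL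
`λ_n` are nonnegative.

We prove that few of them are sufficient, and that there is a dichotomy for their proportion.

* For every base point: all zeros of `Ξ_Δ` are real if and only if `λ_n ≥ 0` on arbitrarily long runs of
  consecutive integers; or on the differences of one infinite set (as sparse as one likes); or at the values
  of one polynomial without constant term (for example `λ_(m²) ≥ 0` for all `m`); or `λ_n ≥ - e^(ε n)` along one
  set of Bohr recurrence. Without any hypothesis `λ_n ≥ 0` holds with bounded gaps; if `Ξ_Δ` has a non-real zero,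
  exponentially large values of both signs occur with bounded gaps.
* For all but countably many base points there are only two possibilities: all `λ_n` are nonnegative (if all zeros
  of `Ξ_Δ` are real), or the set of the `n` with `λ_n ≥ 0` has natural density EXACTLY ONE HALF (if there is a
  non-real zero), also in every arithmetic progression with odd difference. So the conjecture of Ramanujan holds if
  and only if for uncountably many base points more than one half of the Li coefficients are nonnegative.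

Proof. `w = (ρ - α)/(ρ + α - 12)` has modulus one exactly on the line, and `w → 1` as `|ρ| → ∞`; so if there is a zero
off the line the maximum `R > 1` of `|w|` is attained for finitely many zeros, and `λ_n = - R^n ∑ Re (w/R)^n + o(R^n)`
with a finite sum, an almost periodic function with positive coefficients. For all but countably many base points
only one pair of conjugate zeros has the maximal `|w|`, and the argument of `w` is not a rational multiple of `π`
(`Λ` has no real zeros, because `Δ(i y) > 0`). The abstract theorems are those of `Pool.Agent.N793.LI` (helper793);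
the properties of `Λ` are taken from the starting modules `Pool.Agent.H471R3.GJ`, `Pool.Agent.H128R3`.
-/

set_option autoImplicit false

open Complex Filter Topology Polynomial

namespace Pool.Agent.Results.MP_cd509c_nt.LiSigns

/-- `Δ(i y) = e^(-2πy) ∏_{n ≥ 1} (1 - e^(-2πny))^24`, the modular discriminant on the imaginary axis
(the function of the frozen statement S18517). -/
noncomputable def delta (y : ℝ) : ℝ :=
  Real.exp (-2 * Real.pi * y) * ∏' n : ℕ, (1 - Real.exp (-2 * Real.pi * ((n : ℝ) + 1) * y)) ^ 24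

/-- The completed L-function `Λ(s) = ∫_0^∞ Δ(i y) y^(s-1) dy = (2π)^(-s) Γ(s) L(s, Δ)`, an entire
function with `Λ(12 - s) = Λ(s)`. -/
noncomputable def Lam (s : ℂ) : ℂ := mellin (fun y : ℝ => ((delta y : ℝ) : ℂ)) s

/-- The Ramanujan Xi function `Ξ_Δ(z) = Λ(6 + i z)`. -/
noncomputable def Xi (z : ℂ) : ℂ := Lam (6 + Complex.I * z)

/-- The statement of Q1: all zeros of `Ξ_Δ` are real. -/
def RealZeros : Prop := ∀ z : ℂ, Xi z = 0 → z.im = 0

/-- The `n`-th Li coefficient with the base point `α`: the sum of `Re (1 - ((ρ - α)/(ρ + α - 12))^n)` over the zeros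
`ρ` of `Λ` with multiplicity. -/
noncomputable def li (α : ℝ) (n : ℕ) : ℝ :=
  ∑' ρ : ℂ, (analyticOrderNatAt Lam ρ : ℝ) * (1 - (((ρ - α) / (ρ + α - 12)) ^ n).re)

/-- `A` is a set of Bohr recurrence: for all finitely many complex numbers `u` of modulus one, the powers
`u ^ n` are near `1` at the same time for arbitrarily large `n ∈ A`. -/
def Recurrent (A : Set ℕ) : Prop := ∀ (U : Finset ℂ) (ε : ℝ) (N : ℕ), (∀ u ∈ U, ‖u‖ = 1) → 0 < ε →
  ∃ n ∈ A, N ≤ n ∧ ∀ u ∈ U, ‖u ^ n - 1‖ < ε

/-- The statements on the signs of the Li coefficients with the base point `α`. -/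
structure Signs (α : ℝ) : Prop where
  /-- absolute convergence -/
  summable : ∀ n : ℕ, Summable fun ρ : ℂ =>
    (analyticOrderNatAt Lam ρ : ℝ) * (1 - (((ρ - α) / (ρ + α - 12)) ^ n).re)
  /-- arbitrarily long runs -/
  runs : RealZeros ↔ ∀ L : ℕ, ∃ N : ℕ, ∀ n, N < n → n ≤ N + L → 0 ≤ li α n
  /-- arbitrarily long runs of coefficients which are not exponentially negative -/
  weak : RealZeros ↔ ∀ ε : ℝ, 0 < ε → ∀ L : ℕ, ∃ N : ℕ, L ≤ N ∧ ∀ n, N < n → n ≤ N + L →
    -Real.exp (ε * n) ≤ li α n
  /-- finitely many integers with large gaps, and their differences -/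
  gaps : RealZeros ↔ ∀ K : ℕ, ∃ s : ℕ → ℕ, (∀ i, s i + K ≤ s (i + 1)) ∧
    ∀ i j, i < j → j ≤ K → 0 ≤ li α (s j - s i)
  /-- the differences of one infinite set -/
  differences : ∀ S : Set ℕ, S.Infinite →
    (RealZeros ↔ ∀ s ∈ S, ∀ t ∈ S, t < s → 0 ≤ li α (s - t))
  /-- the values of one polynomial without constant term -/
  polynomial : ∀ Q : ℤ[X], Q.coeff 0 = 0 → 0 < Q.leadingCoeff →
    (RealZeros ↔ ∀ m n : ℕ, 1 ≤ m → (n : ℤ) = Q.eval (m : ℤ) → 0 ≤ li α n)
  /-- one set of Bohr recurrence -/
  recurrent : ∀ A : Set ℕ, Recurrent A →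
    (RealZeros ↔ ∀ ε : ℝ, 0 < ε → ∃ N : ℕ, ∀ n ∈ A, N ≤ n → -Real.exp (ε * n) ≤ li α n)
  /-- if there is a non-real zero: exponentially negative on a Bohr set -/
  bohr : ¬ RealZeros → ∃ R : ℝ, 1 < R ∧ ∃ U : Finset ℂ, (∀ u ∈ U, ‖u‖ = 1) ∧
    ∃ N : ℕ, ∀ n, N ≤ n → (∀ u ∈ U, ‖u ^ n - 1‖ < 1 / 2) → li α n ≤ -(R ^ n / 4)
  /-- if there is a non-real zero: both signs with bounded gaps -/
  both : ¬ RealZeros → ∃ R : ℝ, 1 < R ∧ ∃ κ : ℝ, 0 < κ ∧ ∃ L N₀ : ℕ, ∀ N : ℕ, N₀ ≤ N →
      (∃ n, N < n ∧ n ≤ N + L ∧ li α n ≤ -(κ * R ^ n)) ∧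
      (∃ n, N < n ∧ n ≤ N + L ∧ κ * R ^ n ≤ li α n)
  /-- unconditionally: nonnegative with bounded gaps -/
  unconditional : ∃ L : ℕ, ∀ N : ℕ, ∃ n, N < n ∧ n ≤ N + L ∧ 0 ≤ li α n

/-- The proportion of the elements of `A` among the numbers `0, …, N - 1`. -/
noncomputable def proportion (A : Set ℕ) (N : ℕ) : ℝ := ((A ∩ Set.Iio N).ncard : ℝ) / N

/-- `A` has the natural density `δ`. -/
def HasDensity (A : Set ℕ) (δ : ℝ) : Prop := Tendsto (proportion A) atTop (𝓝 δ)

/-- The upper density of `A` is larger than one half. -/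
def MoreThanHalf (A : Set ℕ) : Prop := ∃ δ : ℝ, 0 < δ ∧ ∃ᶠ N in atTop, 1 / 2 + δ ≤ proportion A N

/-- The statements on the proportion of the nonnegative Li coefficients with the base point `α`. -/
structure Proportions (α : ℝ) : Prop where
  /-- if all zeros of `Ξ_Δ` are real: all -/
  all : RealZeros → ∀ n : ℕ, 0 ≤ li α n
  /-- if there is a non-real zero: one half are nonnegative, and for some `ε > 0` one half are at least
  `- e^(ε n)` and one half are at most `e^(ε n)`, in every progression with odd difference -/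
  half : ¬ RealZeros → ∃ ε : ℝ, 0 < ε ∧ ∀ q r : ℕ, Odd q →
    HasDensity {m | 0 ≤ li α (q * m + r)} (1 / 2) ∧
    HasDensity {m | -Real.exp (ε * ((q * m + r : ℕ) : ℝ)) ≤ li α (q * m + r)} (1 / 2) ∧
    HasDensity {m | li α (q * m + r) ≤ Real.exp (ε * ((q * m + r : ℕ) : ℝ))} (1 / 2)
  /-- more than one half are nonnegative -/
  nonneg : ∀ q r : ℕ, Odd q → (RealZeros ↔ MoreThanHalf {m | 0 ≤ li α (q * m + r)})
  /-- more than one half are not exponentially negative -/
  lower : ∀ q r : ℕ, Odd q → (RealZeros ↔ ∀ ε : ℝ, 0 < ε →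
    MoreThanHalf {m | -Real.exp (ε * ((q * m + r : ℕ) : ℝ)) ≤ li α (q * m + r)})
  /-- more than one half are not exponentially positive -/
  upper : ∀ q r : ℕ, Odd q → (RealZeros ↔ ∀ ε : ℝ, 0 < ε →
    MoreThanHalf {m | li α (q * m + r) ≤ Real.exp (ε * ((q * m + r : ℕ) : ℝ))})
  /-- those which are not exponentially large do not have density zero -/
  small : ∀ q r : ℕ, Odd q → (RealZeros ↔ ∀ ε : ℝ, 0 < ε →
    ¬ HasDensity {m | |li α (q * m + r)| ≤ Real.exp (ε * ((q * m + r : ℕ) : ℝ))} 0)

/-- **Main theorem.** `Λ` has no real zeros. The statements `Signs` hold for every base point `α > 6`, and the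
statements `Proportions` hold for all base points `α > 6` outside of a countable set. All zeros of `Ξ_Δ` are real if
and only if there are uncountably many base points `α > 6` for which more than one half of the Li coefficients
are nonnegative. -/
theorem result :
    (∀ x : ℝ, Lam x ≠ 0) ∧
    (∀ α : ℝ, 6 < α → Signs α) ∧
    (∃ X : Set ℝ, X.Countable ∧ ∀ α : ℝ, 6 < α → α ∉ X → Proportions α) ∧
    (RealZeros ↔ ¬ {α : ℝ | 6 < α ∧ MoreThanHalf {n | 0 ≤ li α n}}.Countable) := by
  obtain ⟨B, hB⟩ := Pool.Agent.H128R3.JD.DelHk.isHk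
  have hX : ∀ z : ℂ, Pool.Agent.H128R3.GJB.X1 (Pool.Agent.H128R3.JD.DelHk.hk B) z = Lam (((6 : ℝ) : ℂ) + z) := by
    intro z
    have e : ((12 / 2 : ℝ) : ℂ) = ((6 : ℝ) : ℂ) := by norm_num
    show mellin _ (((12 / 2 : ℝ) : ℂ) + z) = _
    rw [e]
    rfl
  have hsf := Pool.Agent.N965.RL.sf_hecke hB rfl
  rw [show Pool.Agent.H128R3.GJB.X1 (Pool.Agent.H128R3.JD.DelHk.hk B) = fun z => Lam (((6 : ℝ) : ℂ) + z) from
    funext hX] at hsf
  have hre : ∀ x : ℝ, Lam x ≠ 0 := by
    intro x
    have h1 := Pool.Agent.N965.RL.pos_hecke hB rfl (fun y hy => by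
      show 0 ≤ Pool.Agent.H128R3.JD.DelK.Dl y
      unfold Pool.Agent.H128R3.JD.DelK.Dl
      exact mul_nonneg (Real.exp_pos _).le (Pool.Agent.H128R3.JD.DelK.prod_mem hy).1) (x - 6)
    rw [hX] at h1
    have e : ((6 : ℝ) : ℂ) + ((x - 6 : ℝ) : ℂ) = (x : ℂ) := by push_cast; ring
    rwa [e] at h1
  have hli : ∀ α n, Pool.Agent.N793.LI.lam Lam 6 α n = li α n := by
    intro α n
    unfold Pool.Agent.N793.LI.lam li
    refine tsum_congr fun ρ => ?_
    norm_num
  have hrz : Pool.Agent.N793.LI.OnLine Lam 6 ↔ RealZeros := by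
    constructor
    · intro h z hz
      have h1 := h _ hz
      simp at h1
      exact h1
    · intro h s hs
      have h1 := h (-(Complex.I * (s - 6))) (by
        unfold Xi
        have e : (6 : ℂ) + Complex.I * -(Complex.I * (s - 6)) = s := by
          rw [mul_neg, ← mul_assoc, Complex.I_mul_I]
          ring
        rw [e]
        exact hs)
      simp at h1
      linarith
  have hli' : ∀ α, Pool.Agent.N793.LI.lam Lam 6 α = li α := fun α => funext (hli α)
  refine ⟨hre, fun α hα => ?_, ?_, ?_⟩
  · have h := Pool.Agent.N793.LI.concl hsf hα (hre α)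
    have hs : ∀ n : ℕ, Summable fun ρ : ℂ =>
        (analyticOrderNatAt Lam ρ : ℝ) * (1 - (((ρ - α) / (ρ + α - 12)) ^ n).re) := by
      intro n
      have h1 := h.summable n
      norm_num at h1
      exact h1
    have h2 := h.runs
    have h3 := h.weak
    have h4 := h.gaps
    have h5 := h.diff
    have h6 := h.poly
    have h7 := h.recur
    have h8 := h.bohr
    have h9 := h.both fun x _ => hre x
    have h10 := h.uncond fun x _ => hre x
    simp only [hli', hrz] at h2 h3 h4 h5 h6 h7 h8 h9 h10
    exact ⟨hs, h2, h3, h4, h5, h6, h7, h8, h9, h10⟩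
  · obtain ⟨X, hXc, h⟩ := Pool.Agent.N793.LI.half_concl hsf
    refine ⟨X, hXc, fun α h1 h2 => ?_⟩
    have h4 := h α h1 h2 fun x _ => hre x
    have h5 := h4.all
    have h6 := h4.half
    have h7 := h4.more
    have h8 := h4.weak
    have h9 := h4.upper
    have h10 := h4.small
    simp only [hli', hrz] at h5 h6 h7 h8 h9 h10
    exact ⟨h5, h6, h7, h8, h9, h10⟩
  · have h := Pool.Agent.N793.LI.uncountable_iff hsf le_rfl fun x _ => hre x
    simp only [hli', hrz] at h
    exact h

end Pool.Agent.Results.MP_cd509c_nt.LiSigns
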