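import Pool.Agent.N831.LP.L

/-!
# MP_cd509c_nt: Li coefficients of the Ramanujan L-function with a large base point

The Ramanujan Xi function is `Ξ_Δ(z) = Λ(6 + i z)`, `Λ(s) = (2π)^(-s) Γ(s) L(s, Δ)`; it is conjectured that all its zeros
are real, that is, that all zeros of `Λ` are on the line `Re s = 6`. By the criterion of Li in the form of Bombieri and
Lagarias (Lagarias and others for automorphic L-functions) this is equivalent to the positivity of the numbers
`li a n = ∑_ρ Re (1 - ((ρ - a) / (ρ + a - 12))^n)` (`ρ` the zeros of `Λ`) for all `n ≥ 1`, for any one base point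
`a ≥ 13/2`.

We prove without any hypothesis: for every `κ < 2` all coefficients with `n ≤ κ a log a` are positive, and at least
`c n a log a`, for all large `a`. The constant `2` can be improved if and only if all zeros of `Ξ_Δ` are in a strip
`|Im z| ≤ d` with `d < 1/2`; a zero of `Ξ_Δ` with imaginary part larger than `1/κ` produces a negative coefficient with
`n ≤ κ a log a` for ALL large `a`. All zeros of `Ξ_Δ` are real if and only if every constant `κ` is admissible.

Proof: modules `Pool.Agent.N831.LI` (the argument for abstract zeros, first written for the zeta function) and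
`Pool.Agent.N831.LP`. The positivity needs a density theorem with exponent `(1 - 2δ)/(1 - δ)` for the zeros with real
part at least `6 + δ`. It is proved here from the mean square of the mollified function (a large sieve argument to the
right of the strip, and the mollified second moment near the line of the modules `Pool.Agent.Y671`,
`Pool.Agent.Y24.GL`) by Halasz's and Montgomery's zero detection.
-/

set_option autoImplicit false

open Filter

namespace Pool.Agent.Results.MP_cd509c_nt.LiThresholdTwo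

/-- `Δ(i y) = e^(-2πy) ∏_{n ≥ 1} (1 - e^(-2πny))^24`, the modular discriminant on the imaginary axis
(the function of the frozen statement S18517). -/
noncomputable def delta (y : ℝ) : ℝ :=
  Real.exp (-2 * Real.pi * y) * ∏' n : ℕ, (1 - Real.exp (-2 * Real.pi * ((n : ℝ) + 1) * y)) ^ 24

/-- The completed L-function `Λ(s) = ∫_0^∞ Δ(i y) y^(s-1) dy = (2π)^(-s) Γ(s) L(s, Δ)`, an entire
function with `Λ(12 - s) = Λ(s)`. -/
noncomputable def Lam (s : ℂ) : ℂ := mellin (fun y : ℝ => ((delta y : ℝ) : ℂ)) s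

/-- The Ramanujan Xi function `Ξ_Δ(z) = Λ(6 + i z)`. -/
noncomputable def Xi (z : ℂ) : ℂ := Lam (6 + Complex.I * z)

/-- The term of the zero `ρ` in the Li coefficient with base point `a`, with the multiplicity of `ρ`. -/
noncomputable def term (a : ℝ) (n : ℕ) (ρ : ℂ) : ℝ :=
  (analyticOrderNatAt Lam ρ : ℝ) * (1 - ((ρ - a) / (ρ + a - 12)) ^ n).re

/-- The Li coefficient with base point `a`: the sum over the zeros `ρ` of `Λ`, with multiplicity, of
`Re (1 - ((ρ - a) / (ρ + a - 12)) ^ n)`; `a = 13/2` is the usual choice. -/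
noncomputable def li (a : ℝ) (n : ℕ) : ℝ := ∑' ρ : {ρ : ℂ // Lam ρ = 0}, term a n ρ

/-- The coefficients with `n ≤ κ a log a` are at least `c n a log a`, for all large `a`. -/
def Large (κ : ℝ) : Prop := ∃ c : ℝ, 0 < c ∧ ∀ᶠ a : ℝ in atTop, ∀ n : ℕ, 1 ≤ n →
  (n : ℝ) ≤ κ * a * Real.log a → c * n * a * Real.log a ≤ li a n

/-- The coefficients with `n ≤ κ a log a` are nonnegative, for arbitrarily large `a`. -/
def SometimesNonneg (κ : ℝ) : Prop := ∃ᶠ a : ℝ in atTop, ∀ n : ℕ, 1 ≤ n →
  (n : ℝ) ≤ κ * a * Real.log a → 0 ≤ li a n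

/-- All zeros of `Ξ_Δ` are in the strip `|Im z| ≤ d`. -/
def Strip (d : ℝ) : Prop := ∀ z : ℂ, Xi z = 0 → |z.im| ≤ d

lemma Xi_eq (s : ℂ) : Xi (-(Complex.I * (s - 6))) = Lam s := by
  unfold Xi
  congr 1
  rw [mul_neg, ← mul_assoc, Complex.I_mul_I]
  ring

lemma im_eq (s : ℂ) : (-(Complex.I * (s - 6))).im = -(s.re - 6) := by
  simp

open Pool.Agent.N831.LP in
/-- **Main theorem.** The sums `li a n` converge absolutely for `a ≥ 8`. (1) For `κ < 2` the coefficients with
`n ≤ κ a log a` are at least `c n a log a` for all large `a`. (2) If all zeros of `Ξ_Δ` satisfy `|Im z| ≤ d`,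
`0 < d < 1/2`, then this holds for `κ < 1/(2 d (1 - d))`, a number larger than `2`. (3) If `Ξ_Δ` has a zero with
`|Im z| > 1/κ`, then for ALL large `a` there is a negative coefficient with `n ≤ κ a log a`. (4), (5) Some `κ > 2` is
admissible, if only for arbitrarily large `a` and nonnegativity, if and only if all zeros of `Ξ_Δ` satisfy `|Im z| ≤ d`
for some `d < 1/2`. (6), (7) All `κ` are admissible if and only if all zeros of `Ξ_Δ` are real. -/
theorem result :
    (∀ a : ℝ, 8 ≤ a → ∀ n : ℕ, Summable fun ρ : {ρ : ℂ // Lam ρ = 0} => term a n ρ) ∧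
      (∀ κ : ℝ, κ < 2 → Large κ) ∧
      (∀ d : ℝ, 0 < d → d < 1 / 2 → Strip d → ∀ κ : ℝ, κ < 1 / (2 * d * (1 - d)) → Large κ) ∧
      (∀ (κ : ℝ) (z : ℂ), 0 < κ → Xi z = 0 → 1 / κ < |z.im| →
        ∀ᶠ a : ℝ in atTop, ∃ n : ℕ, 1 ≤ n ∧ (n : ℝ) ≤ κ * a * Real.log a ∧ li a n < 0) ∧
      ((∃ κ : ℝ, 2 < κ ∧ SometimesNonneg κ) ↔ ∃ d : ℝ, d < 1 / 2 ∧ Strip d) ∧
      ((∃ κ : ℝ, 2 < κ ∧ Large κ) ↔ ∃ d : ℝ, d < 1 / 2 ∧ Strip d) ∧
      ((∀ z : ℂ, Xi z = 0 → z.im = 0) ↔ ∀ κ : ℝ, 0 < κ → SometimesNonneg κ) ∧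
      ((∀ z : ℂ, Xi z = 0 → z.im = 0) ↔ ∀ κ : ℝ, Large κ) := by
  have hLam : ∀ s, Pool.Agent.Y771.NF.Lam (N := 1) (k := 12) Pool.Agent.W97.TW.deltaForm s = Lam s := fun s => by
    rw [Pool.Agent.Y771.NF.Lam_delta]
    rfl
  obtain ⟨v, hv, hP⟩ : ∃ v : ℂ, v ≠ 0 ∧ P2 1 (fun z => v * Lam (((6 : ℝ) : ℂ) + z)) := by
    obtain ⟨v, hv, hP⟩ := p2_mellin (N := 1) (k := 12) (by norm_num) Pool.Agent.Y771.NF.newf_delta
    refine ⟨v, hv, ?_⟩
    have e : (((12 : ℕ) : ℂ)) / 2 = ((6 : ℝ) : ℂ) := by push_cast; norm_num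
    simp only [hLam, e] at hP
    exact hP
  have hκ : (1 : ℝ) / 2 ≤ 1 := by norm_num
  have e2 : (2 : ℂ) * ((6 : ℝ) : ℂ) = 12 := by push_cast; norm_num
  have h0 := main2 hκ hv hP (L := li) fun a n => by
    rw [e2]
    rfl
  obtain ⟨h1, h2, h3, h4, h5, h6, h7⟩ := h0
  -- reflection
  have hsym : ∀ s : ℂ, Lam s = 0 → ∃ s', Lam s' = 0 ∧ s'.re = 12 - s.re := by
    intro s hs
    have k1 := hP.pl.sy.symm (s - ((6 : ℝ) : ℂ))
    simp only [add_sub_cancel, hs, mul_zero, map_zero] at k1
    refine ⟨_, (mul_eq_zero.1 k1).resolve_left hv, ?_⟩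
    simp
    ring
  have hre : ∀ z : ℂ, (6 + Complex.I * z).re = 6 - z.im := by
    intro z
    simp
    ring
  have hstrip : ∀ d : ℝ, Strip d ↔ ZeroFree Lam (6 + d) := by
    intro d
    constructor
    · intro h s hs hs0
      have k1 := h (-(Complex.I * (s - 6))) (by rw [Xi_eq]; exact hs0)
      rw [im_eq, abs_neg] at k1
      have := le_abs_self (s.re - 6)
      linarith
    · intro h z hz
      have key : ∀ s, Lam s = 0 → s.re ≤ 6 + d := fun s hs => by
        by_contra hcon
        push Not at hcon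
        exact h s hcon hs
      have k1 := key _ hz
      obtain ⟨s', k2, k3⟩ := hsym _ hz
      have k4 := key _ k2
      rw [k3] at k4
      rw [hre] at k1 k4
      rw [abs_le]
      constructor <;> linarith
  have hrh : (∀ z : ℂ, Xi z = 0 → z.im = 0) ↔ ∀ s : ℂ, Lam s = 0 → s.re = 6 := by
    constructor
    · intro h s hs
      have k1 := h (-(Complex.I * (s - 6))) (by rw [Xi_eq]; exact hs)
      rw [im_eq] at k1
      linarith
    · intro h z hz
      have k1 := h _ hz
      rw [hre] at k1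
      linarith
  refine ⟨fun a ha n => ?_, h1, fun d hd hd2 hs κ hκ => h2 d hd hd2 ((hstrip d).1 hs) κ hκ, fun κ z hκ hz hz2 => ?_,
    ?_, ?_, hrh.trans h6, hrh.trans h7⟩
  · have k1 := Pool.Agent.N831.LP.summable hκ hv hP (a := a) (by linarith) n
    rw [e2] at k1
    exact k1
  · rcases le_or_gt 0 z.im with h8 | h8
    · obtain ⟨s', k2, k3⟩ := hsym _ hz
      rw [hre] at k3
      rw [abs_of_nonneg h8] at hz2
      exact h3 κ s' hκ k2 (by rw [k3]; linarith)
    · rw [abs_of_neg h8] at hz2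
      exact h3 κ _ hκ hz (by rw [hre]; linarith)
  · simp only [hstrip]
    exact h4
  · simp only [hstrip]
    exact h5

end Pool.Agent.Results.MP_cd509c_nt.LiThresholdTwo
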