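import Pool.Agent.N881.GW.X6

/-!
# The Riemann hypothesis for Ramanujan's L-function and one-sided bounds in Gaussian windows

`Ξ_Δ(z) = Λ(6 + i z)`, `Λ(s) = ∫_0^∞ Δ(i y) y^{s-1} dy = (2π)^{-s} Γ(s) L(s, Δ)`.  For a prime `p` and
`j ≥ 1` let `t_j(p) = τ(p^j) - p^{11} τ(p^{j-2})`, so that `- L'/L(s, Δ) = ∑ t_j(p) log p p^{-js}`.  All
zeros of `Ξ_Δ` are real if and only if the Gaussian averages of the real numbers
`t_j(p) log p p^{-je}` in windows around `x`, at the single real point `e`, satisfy a bound from ONE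
side.  The averages oscillate beyond the critical size, unconditionally.
-/

set_option autoImplicit false

namespace Pool.Agent.Results.MP_cd509c_nt.OneSidedWindows

/-- `Δ(i y) = e^{-2πy} ∏_{n ≥ 1} (1 - e^{-2πny})^24`, the modular discriminant on the imaginary axis
(the function of the frozen statement S18517). -/
noncomputable def delta (y : ℝ) : ℝ :=
  Real.exp (-2 * Real.pi * y) * ∏' n : ℕ, (1 - Real.exp (-2 * Real.pi * ((n : ℝ) + 1) * y)) ^ 24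

/-- The completed L-function `Λ(s) = ∫_0^∞ Δ(i y) y^{s-1} dy = (2π)^{-s} Γ(s) L(s, Δ)`. -/
noncomputable def Lam (s : ℂ) : ℂ := mellin (fun y : ℝ => ((delta y : ℝ) : ℂ)) s

/-- The Ramanujan Xi function `Ξ_Δ(z) = Λ(6 + i z)`. -/
noncomputable def Xi (z : ℂ) : ℂ := Lam (6 + Complex.I * z)

/-- `τ` is Ramanujan's function: `Δ(i y) = ∑ τ(n) e^{-2πny}` for all `y > 0`. -/
def IsTau (τ : ℕ → ℝ) : Prop :=
  ∀ y : ℝ, 0 < y → HasSum (fun n : ℕ => τ n * Real.exp (-(2 * Real.pi * n * y))) (delta y)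

/-- The coefficients of `- L'/L(s, Δ)`: `log p (τ(p^j) - p^{11} τ(p^{j-2}))` at `n = p^j`, `j ≥ 1`,
(`log p τ(p)` at `n = p`), and zero if `n` is not a prime power. -/
noncomputable def coeff (τ : ℕ → ℝ) (n : ℕ) : ℝ :=
  ArithmeticFunction.vonMangoldt n * (τ n - (n.minFac : ℝ) ^ 11 * τ (n / n.minFac ^ 2))

/-- `∑ |c_n| n^{-σ}` converges for all `σ > e`. -/
def Converges (τ : ℕ → ℝ) (e : ℝ) : Prop :=
  ∀ σ : ℝ, e < σ → Summable fun n : ℕ => |coeff τ n| * (n : ℝ) ^ (-σ)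

/-- The Gaussian average of the `c_n n^{-e}` in the window around `x`,
`√(A / (π log x)) ∑ c_n n^{-e} exp (-A (log (n/x))² / log x)`. -/
noncomputable def average (τ : ℕ → ℝ) (e A x : ℝ) : ℝ :=
  √(A / (Real.pi * Real.log x)) * ∑' n : ℕ, coeff τ n * (n : ℝ) ^ (-e) *
    Real.exp (-(A * (Real.log n - Real.log x) ^ 2 / Real.log x))

/-- Every zero of `Ξ_Δ` has distance at most `β` to the real line. -/
def ZeroFree (β : ℝ) : Prop := ∀ z : ℂ, Xi z = 0 → |z.im| ≤ β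

/-- **Theorem.**  Ramanujan's function `τ` (which is determined by `IsTau`) has the following
properties.  `∑ |c_n| n^{-σ}` converges for `σ > 7`.  Let `e > 6` be a real number such that it
converges for all `σ > e` (such as `e = 7`, and `e = 13/2` by Deligne's theorem).

1. For every `0 < δ ≤ e - 6` the following are equivalent: every zero of `Ξ_Δ` has distance at most
   `e - 6 - δ` to the real line; for all `0 < κ < δ` and all `A ≥ κ / 2` the averages are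
   `O(x^{-(κ - κ²/(4A))})`; for all `0 < κ < δ` and all large `A` they are `O(x^{-κ})`; for all
   `0 < κ < δ` there are arbitrarily large `A` and a `C` such that the average at `x` is at least
   `- C x^{-κ}` for all large `x`; the same with at most `C x^{-κ}`.
2. All zeros of `Ξ_Δ` are real if and only if for all `0 < κ < e - 6` there are arbitrarily large `A`
   and a `C` such that the average at `x` is at least `- C x^{-κ}` for all large `x`; and the same with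
   at most `C x^{-κ}`.
3. For every `κ > e - 6` and all large `A` the averages are `Ω_-(x^{-κ})` and `Ω_+(x^{-κ})`: for every
   `C` there are arbitrarily large `x` where they are `< - C x^{-κ}`, and such where they are
   `> C x^{-κ}`. -/
theorem result : ∃ τ : ℕ → ℝ, IsTau τ ∧ Converges τ 7 ∧ ∀ e : ℝ, 6 < e → Converges τ e →
    (∀ δ : ℝ, 0 < δ → δ ≤ e - 6 → List.TFAE [
      ZeroFree (e - 6 - δ),
      ∀ κ : ℝ, 0 < κ → κ < δ → ∀ A : ℝ, κ ≤ 2 * A → ∃ C : ℝ, ∀ x : ℝ, 2 ≤ x →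
        |average τ e A x| ≤ C * x ^ (-(κ - κ ^ 2 / (4 * A))),
      ∀ κ : ℝ, 0 < κ → κ < δ → ∃ A₀ : ℝ, ∀ A : ℝ, A₀ ≤ A → ∃ C : ℝ, ∀ x : ℝ, 2 ≤ x →
        |average τ e A x| ≤ C * x ^ (-κ),
      ∀ κ : ℝ, 0 < κ → κ < δ → ∀ A₀ : ℝ, ∃ A : ℝ, A₀ ≤ A ∧ ∃ C X : ℝ, ∀ x : ℝ, X ≤ x →
        -(C * x ^ (-κ)) ≤ average τ e A x,
      ∀ κ : ℝ, 0 < κ → κ < δ → ∀ A₀ : ℝ, ∃ A : ℝ, A₀ ≤ A ∧ ∃ C X : ℝ, ∀ x : ℝ, X ≤ x →
        average τ e A x ≤ C * x ^ (-κ)]) ∧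
    List.TFAE [
      ∀ z : ℂ, Xi z = 0 → z.im = 0,
      ∀ κ : ℝ, 0 < κ → κ < e - 6 → ∀ A₀ : ℝ, ∃ A : ℝ, A₀ ≤ A ∧ ∃ C X : ℝ, ∀ x : ℝ, X ≤ x →
        -(C * x ^ (-κ)) ≤ average τ e A x,
      ∀ κ : ℝ, 0 < κ → κ < e - 6 → ∀ A₀ : ℝ, ∃ A : ℝ, A₀ ≤ A ∧ ∃ C X : ℝ, ∀ x : ℝ, X ≤ x →
        average τ e A x ≤ C * x ^ (-κ)] ∧
    ∀ κ : ℝ, e - 6 < κ → ∃ A₀ : ℝ, ∀ A : ℝ, A₀ ≤ A → ∀ C X : ℝ,
      (∃ x : ℝ, X ≤ x ∧ average τ e A x < -(C * x ^ (-κ))) ∧
      ∃ x : ℝ, X ≤ x ∧ C * x ^ (-κ) < average τ e A x := by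
  have hconv : ∀ e : ℝ, Converges Pool.Agent.N881.GW.DL.tau e →
      ∀ s : ℂ, e < s.re → LSeriesSummable (fun n => (Pool.Agent.N881.GW.DL.cc n : ℂ)) s := by
    intro e h s hs
    have h1 := h s.re hs
    unfold LSeriesSummable
    refine Summable.of_norm_bounded h1 fun n => ?_
    rcases Nat.eq_zero_or_pos n with rfl | hn
    · rw [LSeries.term_zero, norm_zero]
      exact mul_nonneg (abs_nonneg _) (Real.rpow_nonneg (Nat.cast_nonneg _) _)
    · rw [LSeries.norm_term_eq, if_neg hn.ne', Complex.norm_real, Real.norm_eq_abs,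
        Real.rpow_neg (Nat.cast_nonneg n), div_eq_mul_inv]
      exact le_rfl
  have hstrip : ∀ β : ℝ, ZeroFree β ↔ ∀ s : ℂ, 6 + β < s.re → Pool.Agent.N881.GW.DL.Lam s ≠ 0 :=
    fun β => Pool.Agent.N881.GW.DL.strip_iff
  refine ⟨Pool.Agent.N881.GW.DL.tau, fun y hy => Pool.Agent.N881.GW.DL.tau_sum hy, ?_, ?_⟩
  · intro σ hσ
    have h1 := (Pool.Agent.N881.GW.DL.cc_seven (σ : ℂ) (by rw [Complex.ofReal_re]; exact hσ)).norm
    refine h1.congr fun n => ?_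
    rcases Nat.eq_zero_or_pos n with rfl | hn
    · rw [LSeries.term_zero, norm_zero]
      have : coeff Pool.Agent.N881.GW.DL.tau 0 = 0 := by unfold coeff; simp
      rw [this, abs_zero, zero_mul]
    · rw [LSeries.norm_term_eq, if_neg hn.ne', Complex.norm_real, Real.norm_eq_abs,
        Real.rpow_neg (Nat.cast_nonneg n), div_eq_mul_inv, Complex.ofReal_re]
      rfl
  · intro e he6 hce
    have he := hconv e hce
    have hmain : ∀ δ : ℝ, 0 < δ → δ ≤ e - 6 → List.TFAE [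
      ZeroFree (e - 6 - δ),
      ∀ κ : ℝ, 0 < κ → κ < δ → ∀ A : ℝ, κ ≤ 2 * A → ∃ C : ℝ, ∀ x : ℝ, 2 ≤ x →
        |average Pool.Agent.N881.GW.DL.tau e A x| ≤ C * x ^ (-(κ - κ ^ 2 / (4 * A))),
      ∀ κ : ℝ, 0 < κ → κ < δ → ∃ A₀ : ℝ, ∀ A : ℝ, A₀ ≤ A → ∃ C : ℝ, ∀ x : ℝ, 2 ≤ x →
        |average Pool.Agent.N881.GW.DL.tau e A x| ≤ C * x ^ (-κ),
      ∀ κ : ℝ, 0 < κ → κ < δ → ∀ A₀ : ℝ, ∃ A : ℝ, A₀ ≤ A ∧ ∃ C X : ℝ, ∀ x : ℝ, X ≤ x →
        -(C * x ^ (-κ)) ≤ average Pool.Agent.N881.GW.DL.tau e A x,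
      ∀ κ : ℝ, 0 < κ → κ < δ → ∀ A₀ : ℝ, ∃ A : ℝ, A₀ ≤ A ∧ ∃ C X : ℝ, ∀ x : ℝ, X ≤ x →
        average Pool.Agent.N881.GW.DL.tau e A x ≤ C * x ^ (-κ)] := by
      intro δ hδ hδe
      have h1 := Pool.Agent.N881.GW.DL.crit he6 he hδ (by linarith)
      have h2 : ZeroFree (e - 6 - δ) ↔
          ∀ s : ℂ, e - δ < s.re → Pool.Agent.N881.GW.DL.Lam s ≠ 0 := by
        rw [hstrip]
        have : 6 + (e - 6 - δ) = e - δ := by ring
        rw [this]
      rw [h2]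
      exact h1
    refine ⟨hmain, ?_, fun κ hκ => ?_⟩
    · have h0 := hmain (e - 6) (by linarith) le_rfl
      have h1 : (∀ z : ℂ, Xi z = 0 → z.im = 0) ↔ ZeroFree (e - 6 - (e - 6)) := by
        unfold ZeroFree
        rw [sub_self]
        exact forall_congr' fun z => forall_congr' fun _ => by
          rw [abs_nonpos_iff]
      rw [h1]
      have h14 := h0.out 0 3
      have h15 := h0.out 0 4
      tfae_have 1 ↔ 2 := h14
      tfae_have 1 ↔ 3 := h15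
      tfae_finish
    · obtain ⟨⟨A1, h1⟩, ⟨A2, h2⟩⟩ := Pool.Agent.N881.GW.DL.osc he6 he hκ
      exact ⟨max A1 A2, fun A hA C X => ⟨h1 A ((le_max_left _ _).trans hA) C X,
        h2 A ((le_max_right _ _).trans hA) C X⟩⟩

end Pool.Agent.Results.MP_cd509c_nt.OneSidedWindows
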